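import Pool.Agent.SZG.StmtsF

/-! SZG, row ASZ: assembly of the theorem. -/

namespace Pool.Agent.SZG.H11

open scoped BigOperators
open Pool.Agent.THS

theorem nv_mul {K ι : Type} [Field K] (v : AbsoluteValue K ℝ) (c : K) (y : ι → K) :
    nv v (fun i => c * y i) = v c * nv v y := by
  unfold nv
  rw [Real.mul_iSup_of_nonneg (v.nonneg c)]
  exact iSup_congr fun i => v.map_mul c (y i)

theorem cm_mul {K ι : Type} [Field K] (v : AbsoluteValue K ℝ) (c d : K) (y y' : ι → K)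
    (h : CM v y y') : CM v (fun i => c * y i) (fun i => d * y' i) := by
  obtain ⟨p, h1, h2⟩ := h
  refine ⟨p, ?_, ?_⟩
  · rw [nv_mul, ← h1]; exact v.map_mul c (y p)
  · rw [nv_mul, ← h2]; exact v.map_mul d (y' p)

theorem tc_mul {K ι : Type} [Field K] (v : AbsoluteValue K ℝ) (θ : ℝ) (c d : K) (y y' : ι → K)
    (h : TC v θ y y') : TC v θ (fun i => c * y i) (fun i => d * y' i) := by
  intro p q
  have h1 := h p q
  have h2 : c * y p * (d * y' q) - c * y q * (d * y' p) = (c * d) * (y p * y' q - y q * y' p) := by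
    ring
  show v (c * y p * (d * y' q) - c * y q * (d * y' p)) ≤ _
  rw [nv_mul, nv_mul, h2, v.map_mul, v.map_mul]
  calc v c * v d * v (y p * y' q - y q * y' p)
      ≤ v c * v d * (θ * (nv v y * nv v y')) :=
        mul_le_mul_of_nonneg_left h1 (mul_nonneg (v.nonneg c) (v.nonneg d))
    _ = θ * (v c * nv v y * (v d * nv v y')) := by ring

theorem lN_nonneg {K : Type} [Field K] [NumberField K] (v : NumberField.FinitePlace K) :
    0 ≤ lN v := by
  unfold lN
  exact Real.log_natCast_nonneg _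

theorem card_row (g l : ℕ) : Fintype.card (Row g l) = 2 ^ g * l ^ (2 * g) := by
  simp only [Row, Bx, Ch, Fintype.card_prod, Fintype.card_fun, ZMod.card, Fintype.card_fin]
  rw [two_mul, pow_add]

theorem gam_k {g : ℕ} (τ : Matrix (Fin g) (Fin g) ℂ) (z : Fin g → ℂ) (l : ℕ) (k : ℤ) :
    gam τ z l ((k, 0, 0) : Idx g) = fun i => (k : ℂ) * z i := by
  funext r
  simp [gam]

theorem asz (h1 : DalStmt) (h2 : ThgStmt) (h3 : AltStmt) (h4 : NorStmt) (h5 : Ht2Stmt)
    (h6 : RkdStmt) : AszStmt := by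
  intro g σ
  obtain ⟨n, hn, hdal⟩ := h1 g (max σ 0)
  refine ⟨n, ?_⟩
  intro l hl hodd d
  obtain ⟨S0, hS0⟩ := hdal l hl hodd d ((g : ℝ) * d * Real.log 2)
  obtain ⟨B, hB⟩ := h4 g d (Real.exp (max σ 0 * S0))
  refine ⟨B, ?_⟩
  intro K _ _ hd φ τ hτ z hz x hx hφ S ev hS hH
  obtain ⟨E, L0, c, e, s, T, x', hQ, hL, hκ, ν, η, hν, hη, hF⟩ :=
    h2 g K φ τ hτ z l hl.pos hz x hx hφ
  obtain ⟨κ0, hκ0, hx0⟩ := hκ 0
  have hx0' : x' 0 = fun ab => κ0 * x 0 ab := by
    funext ab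
    have h := hx0 ab
    rwa [add_zero] at h
  have hht : Height.mulHeight (x' 0) = Height.mulHeight (x 0) := by
    have h : x' 0 = κ0 • x 0 := by rw [hx0']; rfl
    rw [h]
    exact Height.mulHeight_smul_eq_mulHeight _ hκ0
  have hs0 : 0 ≤ ∑ v ∈ S, (ev v : ℝ) * lN v :=
    Finset.sum_nonneg fun v _ => mul_nonneg (Nat.cast_nonneg _) (lN_nonneg v)
  have hσ : σ * ∑ v ∈ S, (ev v : ℝ) * lN v ≤ max σ 0 * ∑ v ∈ S, (ev v : ℝ) * lN v :=
    mul_le_mul_of_nonneg_right (le_max_left _ _) hs0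
  have hl2 : 0 ≤ Real.log 2 := Real.log_nonneg (by norm_num)
  have hT : Real.log (Height.mulHeight (T 0))
      ≤ max σ 0 * ∑ v ∈ S, (ev v : ℝ) * lN v + (g : ℝ) * d * Real.log 2 := by
    have h := h5 K (Idx g) g E L0 c e s T x' hQ
    rw [hht] at h
    have hTp : 0 < Height.mulHeight (T 0) := Height.mulHeight_pos _
    have hxp : 0 < Height.mulHeight (x 0) := Height.mulHeight_pos _
    have h' := Real.log_le_log (pow_pos hTp 2) h
    rw [Real.log_pow, Real.log_mul (by positivity) (pow_pos hxp 2).ne', Real.log_pow,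
      Real.log_pow] at h'
    push_cast at h'
    have hfd : (g : ℝ) * (Module.finrank ℚ K : ℝ) * Real.log 2 ≤ (g : ℝ) * d * Real.log 2 := by
      have : (Module.finrank ℚ K : ℝ) ≤ d := by exact_mod_cast hd
      exact mul_le_mul_of_nonneg_right (mul_le_mul_of_nonneg_left this (Nat.cast_nonneg _)) hl2
    have hgd : 0 ≤ (g : ℝ) * d * Real.log 2 := by positivity
    linarith
  have hSx : ∀ v ∈ S, v.val 2 = 1 ∧ 1 ≤ ev v ∧ (∀ m : ℤ, CM v.val (x' (m • Zz g)) (x' 0)) ∧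
      ∃ p q : Fin g → ℤ, (∃ i, ¬ (l : ℤ) ∣ p i ∨ ¬ (l : ℤ) ∣ q i) ∧
        ∀ m : ℤ, TC v.val ((qv v ^ ev v)⁻¹) (x' (m • ((0, p, q) : Idx g))) (x' 0) := by
    intro v hv
    obtain ⟨a1, a2, a3, p, q, a4, a5⟩ := hS v hv
    refine ⟨a1, a2, ?_, p, q, a4, ?_⟩
    · intro m
      obtain ⟨κ1, _, hx1⟩ := hκ (m • Zz g)
      have he : m • Zz g + m • Zz g = ((m + m, 0, 0) : Idx g) := by
        rw [← add_smul]
        ext <;> simp [Zz]
      have hx1' : x' (m • Zz g) = fun ab => κ1 * x (m + m, 0, 0) ab := by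
        funext ab
        have h := hx1 ab
        rwa [he] at h
      rw [hx1', hx0']
      exact cm_mul _ _ _ _ _ (a3 (m + m))
    · intro m
      obtain ⟨κ1, _, hx1⟩ := hκ (m • ((0, p, q) : Idx g))
      have hx1' : x' (m • ((0, p, q) : Idx g))
          = fun ab => κ1 * x ((m + m) • ((0, p, q) : Idx g)) ab := by
        funext ab
        have h := hx1 ab
        rwa [← add_smul] at h
      rw [hx1', hx0']
      exact tc_mul _ _ _ _ _ _ (a5 (m + m))
  rcases h6 K ℕ (Row g l) (n * l ^ (2 * g - 1))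
    (fun r k => Mp l e T (Zz g) (lft r.2) k r.1) with ⟨κ, hκi, hκr⟩ | ⟨r, k, hdet⟩
  · right
    rw [← card_row g l]
    exact h3 g K φ τ hτ z l hodd e T ν η hν hη hF _ κ hκi hκr
  · left
    have hsum := hS0 K hd E L0 c e s T x' hQ hL S ev hSx hT r k hdet
    have hxz : Height.mulHeight (x 0) ≤ Real.exp (max σ 0 * S0) := by
      have hxp : 0 < Height.mulHeight (x 0) := Height.mulHeight_pos _
      rw [← Real.log_le_iff_le_exp hxp]
      calc Real.log (Height.mulHeight (x 0)) ≤ σ * ∑ v ∈ S, (ev v : ℝ) * lN v := hH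
        _ ≤ max σ 0 * ∑ v ∈ S, (ev v : ℝ) * lN v := hσ
        _ ≤ max σ 0 * S0 := mul_le_mul_of_nonneg_left hsum (le_max_right _ _)
    refine hB K hd φ τ hτ z hz (fun k => x (k, 0, 0)) (fun k => hx _) ?_ hxz
    intro k
    obtain ⟨μ, hμ⟩ := hφ (k, 0, 0)
    refine ⟨μ, fun ab => ?_⟩
    rw [← gam_k τ z l k]
    exact hμ ab

end Pool.Agent.SZG.H11
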